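import Mathlib
import Pool.Agent.Y214.HB.Stm

/-!
# Project HB, job DEN: forms of bounded height with no smooth zero at given points
-/

set_option autoImplicit false

namespace Pool.Agent.Y994.HB

open Finset Pool.Agent.Y214.HB

/-- the exponents of the monomials of degree `d` -/
abbrev TT (n d : ℕ) : Type := {u : Fin (n + 1) →₀ ℕ // ∑ i, u i = d}

local instance instFinTT (n d : ℕ) : Finite (TT n d) := by
  have hle : ∀ u : TT n d, ∀ i, u.1 i < d + 1 := by
    intro u i
    have h1 : u.1 i ≤ ∑ i, u.1 i := single_le_sum (fun _ _ => Nat.zero_le _) (mem_univ i)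
    have h2 := u.2
    omega
  refine Finite.of_injective (fun (u : TT n d) (i : Fin (n + 1)) => (⟨u.1 i, hle u i⟩ : Fin (d + 1)))
    ?_
  intro u v huv
  refine Subtype.ext (Finsupp.ext fun i => ?_)
  have := congrFun huv i
  exact congrArg Fin.val this

noncomputable local instance instFtTT (n d : ℕ) : Fintype (TT n d) := Fintype.ofFinite _

/-- the form with given coefficients -/
noncomputable def pol {R : Type} [CommRing R] {n d : ℕ} (c : TT n d → R) :
    MvPolynomial (Fin (n + 1)) R :=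
  ∑ t : TT n d, MvPolynomial.monomial (t : Fin (n + 1) →₀ ℕ) (c t)

lemma coeff_pol {R : Type} [CommRing R] {n d : ℕ} (c : TT n d → R) (t : TT n d) :
    (pol c).coeff (t : Fin (n + 1) →₀ ℕ) = c t := by
  classical
  unfold pol
  rw [MvPolynomial.coeff_sum, sum_eq_single t]
  · rw [MvPolynomial.coeff_monomial, if_pos rfl]
  · intro s _ hs
    rw [MvPolynomial.coeff_monomial, if_neg]
    exact fun h => hs (Subtype.ext h)
  · intro h
    exact absurd (mem_univ _) h

lemma coeff_pol_ne {R : Type} [CommRing R] {n d : ℕ} (c : TT n d → R) (u : Fin (n + 1) →₀ ℕ)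
    (hu : ∑ i, u i ≠ d) : (pol c).coeff u = 0 := by
  classical
  unfold pol
  rw [MvPolynomial.coeff_sum]
  refine sum_eq_zero fun t _ => ?_
  rw [MvPolynomial.coeff_monomial, if_neg]
  rintro rfl
  exact hu t.2

lemma hom_pol {n d : ℕ} (c : TT n d → ℤ) : (pol c).IsHomogeneous d := by
  unfold pol
  refine MvPolynomial.IsHomogeneous.sum _ _ _ fun t _ => ?_
  refine MvPolynomial.isHomogeneous_monomial _ ?_
  rw [Finsupp.degree_eq_sum]
  exact t.2

lemma pol_inj {n d : ℕ} : Function.Injective (pol : (TT n d → ℤ) → _) := by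
  intro c c' h
  funext t
  rw [← coeff_pol c t, ← coeff_pol c' t, h]

lemma Fm_eq (n d H : ℕ) :
    Fm n d H = pol '' {c : TT n d → ℤ | ∀ t, |c t| ≤ (H : ℤ)} := by
  ext f
  constructor
  · rintro ⟨h1, h2⟩
    refine ⟨fun t => f.coeff t, fun t => h2 t, ?_⟩
    refine MvPolynomial.ext _ _ fun u => ?_
    by_cases hu : ∑ i, u i = d
    · exact coeff_pol (fun t : TT n d => f.coeff t) ⟨u, hu⟩
    · rw [coeff_pol_ne _ _ hu]
      refine (h1.coeff_eq_zero ?_).symm
      rw [Finsupp.degree_eq_sum]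
      exact hu
  · rintro ⟨c, hc, rfl⟩
    refine ⟨hom_pol c, fun u => ?_⟩
    by_cases hu : ∑ i, u i = d
    · have := coeff_pol c ⟨u, hu⟩
      rw [show (pol c).coeff u = c ⟨u, hu⟩ from this]
      exact hc _
    · rw [coeff_pol_ne _ _ hu, abs_zero]
      positivity

lemma box_eq (n d H : ℕ) : {c : TT n d → ℤ | ∀ t, |c t| ≤ (H : ℤ)} =
    ((Fintype.piFinset fun _ : TT n d => Finset.Icc (-(H : ℤ)) H : Finset (TT n d → ℤ)) :
      Set (TT n d → ℤ)) := by
  classical
  ext c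
  rw [mem_coe, Fintype.mem_piFinset]
  refine forall_congr' fun t => ?_
  rw [mem_Icc, abs_le]

lemma box_fin (n d H : ℕ) : {c : TT n d → ℤ | ∀ t, |c t| ≤ (H : ℤ)}.Finite := by
  rw [box_eq]
  exact finite_toSet _

lemma Fm_card (n d H : ℕ) : ((Fm n d H).ncard : ℝ) =
    (2 * (H : ℝ) + 1) ^ Fintype.card (TT n d) := by
  classical
  rw [Fm_eq, Set.ncard_image_of_injective _ pol_inj, box_eq, Set.ncard_coe_finset,
    Fintype.card_piFinset]
  simp only [Int.card_Icc, prod_const, card_univ]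
  have h : ((H : ℤ) + 1 - -(H : ℤ)).toNat = 2 * H + 1 := by omega
  rw [h]
  push_cast
  ring

lemma eval_cast {n : ℕ} (p : ℕ) (f : MvPolynomial (Fin (n + 1)) ℤ) (a : Fin (n + 1) → ℤ) :
    MvPolynomial.eval (fun i => (a i : ZMod p)) (MvPolynomial.map (Int.castRingHom (ZMod p)) f) =
      ((MvPolynomial.eval a f : ℤ) : ZMod p) := by
  rw [MvPolynomial.eval_map, MvPolynomial.eval₂_eq', MvPolynomial.eval_eq']
  push_cast
  rfl

lemma map_pol {n d : ℕ} (p : ℕ) (c : TT n d → ℤ) :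
    MvPolynomial.map (Int.castRingHom (ZMod p)) (pol c) = pol (fun t => (c t : ZMod p)) := by
  unfold pol
  rw [map_sum]
  refine sum_congr rfl fun t _ => ?_
  rw [MvPolynomial.map_monomial]
  rfl

lemma test_iff {n d : ℕ} (p : ℕ) (c : TT n d → ℤ) (a : Fin (n + 1) → ℤ) :
    Test (pol c) p a ↔
      (MvPolynomial.eval (fun i => (a i : ZMod p)) (pol (fun t => (c t : ZMod p))) = 0 ∧
        ∃ j, MvPolynomial.eval (fun i => (a i : ZMod p))
          (MvPolynomial.pderiv j (pol (fun t => (c t : ZMod p)))) ≠ 0) := by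
  unfold Test
  rw [← map_pol, eval_cast]
  refine and_congr (CharP.intCast_eq_zero_iff (ZMod p) p _).symm (exists_congr fun j => ?_)
  rw [MvPolynomial.pderiv_map, eval_cast, Ne]
  exact not_congr (CharP.intCast_eq_zero_iff (ZMod p) p _).symm

theorem t_DEN1 (h1 : S_BOX) (h2 : S_ALG) : S_DEN1 := by
  classical
  intro n d hn hd A hA a ha ε hε
  obtain ⟨H₀, hH₀⟩ := h1 (TT n d) A hA
    (fun p => {c : TT n d → ZMod p | ¬ (MvPolynomial.eval (fun i => (a p i : ZMod p)) (pol c) = 0 ∧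
      ∃ j, MvPolynomial.eval (fun i => (a p i : ZMod p))
        (MvPolynomial.pderiv j (pol c)) ≠ 0)})
    (fun p => 1 - ((p : ℝ) - 1) / (p : ℝ) ^ 2)
    (fun p hp => by
      have : Fact p.Prime := ⟨hA p hp⟩
      refine h2 n d p hn hd (TT n d) (Equiv.refl _) (fun i => (a p i : ZMod p)) ?_
      intro h0
      obtain ⟨i, hi⟩ := ha p hp
      apply hi
      exact (CharP.intCast_eq_zero_iff (ZMod p) p _).1 (congrFun h0 i)) ε hε
  refine ⟨H₀, fun H hH => ?_⟩
  refine le_trans ?_ (le_trans (hH₀ H hH) (le_of_eq (by rw [Fm_card])))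
  have hsub : {f | f ∈ Fm n d H ∧ ∀ p ∈ A, ¬ Test f p (a p)} ⊆
      pol '' {c : TT n d → ℤ | (∀ t, |c t| ≤ (H : ℤ)) ∧ ∀ p ∈ A, (fun t => (c t : ZMod p)) ∈
        {c : TT n d → ZMod p | ¬ (MvPolynomial.eval (fun i => (a p i : ZMod p)) (pol c) = 0 ∧
          ∃ j, MvPolynomial.eval (fun i => (a p i : ZMod p))
            (MvPolynomial.pderiv j (pol c)) ≠ 0)}} := by
    rintro f ⟨hf, hT⟩
    rw [Fm_eq] at hf
    obtain ⟨c, hc, rfl⟩ := hf
    refine ⟨c, ⟨hc, fun p hp => ?_⟩, rfl⟩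
    intro hcon
    exact hT p hp ((test_iff p c (a p)).2 hcon)
  have hfin : {c : TT n d → ℤ | (∀ t, |c t| ≤ (H : ℤ)) ∧ ∀ p ∈ A, (fun t => (c t : ZMod p)) ∈
        {c : TT n d → ZMod p | ¬ (MvPolynomial.eval (fun i => (a p i : ZMod p)) (pol c) = 0 ∧
          ∃ j, MvPolynomial.eval (fun i => (a p i : ZMod p))
            (MvPolynomial.pderiv j (pol c)) ≠ 0)}}.Finite :=
    (box_fin n d H).subset fun c hc => hc.1
  have h3 := Set.ncard_le_ncard hsub (hfin.image _)
  rw [Set.ncard_image_of_injective _ pol_inj] at h3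
  exact_mod_cast h3

end Pool.Agent.Y994.HB
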